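import Pool.Agent.H14.P3Q.Dense
import Pool.Agent.H14.VC.Rough

/-!
# Values of `n ^ 2 + 1` at differences of a set of integers

(1) Sets `A` of integers up to `N` of density `α ≥ (log N) ^ (-1 + ε)`: many pairs `a < b` in `A`
for which `(h + (b - a)) ^ 2 + 1` has at most THREE prime factors, for `h = 0` and for all `h` such
that `h ^ 2 + 1` has no small prime factor.
(2) Sets with only `N ^ (1 - κ)` elements: at most `r` prime factors.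
-/

set_option autoImplicit false

namespace Pool.Agent.Results.MP_484c84_nt.DifferenceSets

open Polynomial Finset
open Pool.Agent.H14.SK Pool.Agent.W123.RU.Poly

/-- all prime factors of the integer `m` are larger than `y` -/
def Rough (y : ℝ) (m : ℤ) : Prop :=
  ∀ p : ℕ, p.Prime → (p : ℤ) ∣ m → y < p

/-- all prime factors of the integer `m` are larger than `y` and there are at most `r` of them
(counted with multiplicity) -/
def AlmostPrime (y : ℝ) (r : ℕ) (m : ℤ) : Prop :=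
  Rough y m ∧ ArithmeticFunction.cardFactors m.natAbs ≤ r

lemma good_imp (N : ℕ) (hN : 2 ≤ N) (m : ℤ) (h : Pool.Agent.H14.P3.Good3 N m.natAbs) :
    AlmostPrime ((N : ℝ) ^ (38 / 100 : ℝ)) 3 m := by
  have hN1 : (1 : ℝ) < N := by exact_mod_cast (by omega : 1 < N)
  refine ⟨?_, h.2⟩
  intro p hp hd
  refine lt_of_lt_of_le ?_ (h.1 p hp (Int.natCast_dvd.1 hd))
  exact Real.rpow_lt_rpow_of_exponent_lt hN1 (by norm_num)

open Classical in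
/-- sets of density at least `(log N) ^ (-1 + ε)`: at most three prime factors -/
theorem three : ∀ ε : ℝ, 0 < ε → ∃ (C : ℝ) (N₀ : ℕ), 0 < C ∧ ∀ N : ℕ, N₀ ≤ N →
    ∀ (A : Finset ℕ) (α : ℝ), A ⊆ Finset.Icc 1 N → 0 < α → Real.log N ^ (-(1 - ε)) ≤ α →
      α * N ≤ A.card → ∀ h : ℤ, |h| ≤ N →
      (∀ p : ℕ, p.Prime → (p : ℝ) ≤ C * α ^ (-(1 + ε)) → ¬ (p : ℤ) ∣ h ^ 2 + 1) →
      Real.exp (-(C * α ^ (-(1 + ε)))) * N ^ 2 / Real.log N ≤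
        (((A ×ˢ A).filter (fun x => x.1 < x.2 ∧
          AlmostPrime ((N : ℝ) ^ (38 / 100 : ℝ)) 3 ((h + ((x.2 : ℤ) - x.1)) ^ 2 + 1))).card : ℝ) := by
  intro ε hε
  have e : ∀ n : ℤ, Pool.Agent.H14.P3Q.qf 1 0 1 n = n ^ 2 + 1 := by
    intro n
    unfold Pool.Agent.H14.P3Q.qf
    ring
  obtain ⟨C, N₀, hC, h0⟩ := Pool.Agent.H14.P3Q.quad3 1 0 1 (by
    rintro ⟨x, hx⟩
    nlinarith [mul_self_nonneg x]) ε hε
  refine ⟨C, max N₀ 2, hC, fun N hN A α hA hα hαL hcard h hh hhp => ?_⟩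
  have hN2 : 2 ≤ N := (le_max_right _ _).trans hN
  refine (h0 N ((le_max_left _ _).trans hN) A α hA hα hαL hcard h hh (by
    intro p hp hpC
    rw [e]
    exact hhp p hp hpC)).trans ?_
  apply Nat.cast_le.2
  apply card_le_card
  intro x hx
  rw [mem_filter] at hx ⊢
  refine ⟨hx.1, hx.2.1, good_imp N hN2 _ ?_⟩
  rw [← e]
  exact hx.2.2

/-- the polynomial `(h + X) ^ 2 + 1` -/
noncomputable def sqh (h : ℤ) : ℤ[X] := C 1 * X ^ 2 + C (2 * h) * X + C (h ^ 2 + 1)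

lemma sqh_eval (h n : ℤ) : (sqh h).eval n = (h + n) ^ 2 + 1 := by
  unfold sqh
  simp
  ring

lemma sqh_deg (h : ℤ) : (sqh h).natDegree ≤ 2 := natDegree_quadratic_le

lemma sqh_coeff (h Y : ℤ) (h1 : 1 ≤ Y) (h2 : |2 * h| ≤ Y) (h3 : |h ^ 2 + 1| ≤ Y) (i : ℕ) : |(sqh h).coeff i| ≤ Y := by
  have e : (sqh h).coeff i = if i = 2 then 1 else if i = 1 then 2 * h else if i = 0 then h ^ 2 + 1 else 0 := by
    unfold sqh
    simp only [coeff_add, coeff_C_mul, coeff_X_pow, coeff_X, coeff_C]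
    rcases i with _ | _ | _ | i
    · simp
    · simp
    · simp
    · simp
  rw [e]
  split_ifs
  · simpa using h1
  · exact h2
  · exact h3
  · rw [abs_zero]
    linarith

open Classical in
/-- sets with at least `N ^ (1 - κ)` elements, values of `n ^ 2 + 1` -/
theorem sparse_sq : ∃ κ : ℝ, 0 < κ ∧ ∀ B : ℕ, ∃ r : ℕ, ∀ ε : ℝ, 0 < ε → ∃ N₀ : ℕ, ∀ N : ℕ, N₀ ≤ N →
    ∀ h : ℤ, |h| ≤ (N : ℤ) ^ B → Rough ((N : ℝ) ^ κ) (h ^ 2 + 1) →
    ∀ (u : ℕ) (A : Finset ℕ), A ⊆ Ioc u (u + N) → (N : ℝ) ^ (1 - κ) ≤ A.card →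
      (A.card : ℝ) ^ 2 * (N : ℝ) ^ (-ε) ≤
        ((A ×ˢ A).filter (fun x : ℕ × ℕ => x.1 < x.2 ∧
          AlmostPrime ((N : ℝ) ^ κ) r ((h + ((x.2 : ℤ) - x.1)) ^ 2 + 1) ∧
          AlmostPrime ((N : ℝ) ^ κ) r ((h - ((x.2 : ℤ) - x.1)) ^ 2 + 1))).card := by
  obtain ⟨κ, hκ, hκ1, h1⟩ := Pool.Agent.H14.VC.poly_vc 1 2
  refine ⟨κ, hκ, ?_⟩
  intro B
  obtain ⟨r, hr⟩ := h1 κ hκ le_rfl (2 * B + 1)
  refine ⟨r, ?_⟩
  intro ε hε
  obtain ⟨N₀, hN₀⟩ := hr ε hε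
  refine ⟨max N₀ 2, ?_⟩
  intro N hN h hh hgood u A hA hcard
  have hN2 : (2 : ℤ) ≤ N := by
    have : 2 ≤ N := (le_max_right _ _).trans hN
    exact_mod_cast this
  have hNB : (1 : ℤ) ≤ (N : ℤ) ^ B := one_le_pow₀ (by linarith)
  have hNB2 : (N : ℤ) ^ (2 * B + 1) = (N : ℤ) ^ B * (N : ℤ) ^ B * N := by ring
  have hY : 2 * ((N : ℤ) ^ B * (N : ℤ) ^ B) ≤ (N : ℤ) ^ (2 * B + 1) := by
    rw [hNB2]
    nlinarith [mul_nonneg (by linarith : (0 : ℤ) ≤ (N : ℤ) ^ B) (by linarith : (0 : ℤ) ≤ (N : ℤ) ^ B)]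
  have hYY : (N : ℤ) ^ B ≤ (N : ℤ) ^ B * (N : ℤ) ^ B := by nlinarith
  have hsq : h ^ 2 ≤ (N : ℤ) ^ B * (N : ℤ) ^ B := by
    rw [← sq_abs, pow_two]
    exact mul_le_mul hh hh (abs_nonneg _) (by linarith)
  have h2 := hN₀ N ((le_max_left _ _).trans hN) (fun _ : Fin 1 => sqh h)
    (by
      rw [Fin.sum_univ_one]
      exact sqh_deg h)
    (by
      intro i k
      apply sqh_coeff
      · linarith
      · rw [abs_mul, abs_of_nonneg (by norm_num : (0 : ℤ) ≤ 2)]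
        linarith
      · rw [abs_of_nonneg (by positivity)]
        linarith)
    0 (by simp)
    (by
      intro i p hp hpN hd
      rw [sqh_eval, add_zero] at hd
      have := hgood p hp hd
      linarith)
    u A hA hcard
  refine h2.trans ?_
  apply Nat.cast_le.2
  apply card_le_card
  intro x hx
  rw [mem_filter] at hx ⊢
  refine ⟨hx.1, hx.2.1, ?_⟩
  have h3 := hx.2.2 0
  simp only [sqh_eval] at h3
  have e1 : h + (0 + ((x.2 : ℤ) - x.1)) = h + ((x.2 : ℤ) - x.1) := by ring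
  have e2 : h + (0 - ((x.2 : ℤ) - x.1)) = h - ((x.2 : ℤ) - x.1) := by ring
  rw [e1, e2] at h3
  exact h3

open Classical in
/-- **Values of `n ^ 2 + 1` at the differences of a set.** -/
theorem result :
    -- (1) sets of density at least `(log N) ^ (-1 + ε)`: at most three prime factors
    (∀ ε : ℝ, 0 < ε → ∃ (C : ℝ) (N₀ : ℕ), 0 < C ∧ ∀ N : ℕ, N₀ ≤ N →
      ∀ (A : Finset ℕ) (α : ℝ), A ⊆ Finset.Icc 1 N → 0 < α → Real.log N ^ (-(1 - ε)) ≤ α →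
        α * N ≤ A.card → ∀ h : ℤ, |h| ≤ N →
        (∀ p : ℕ, p.Prime → (p : ℝ) ≤ C * α ^ (-(1 + ε)) → ¬ (p : ℤ) ∣ h ^ 2 + 1) →
        Real.exp (-(C * α ^ (-(1 + ε)))) * N ^ 2 / Real.log N ≤
          (((A ×ˢ A).filter (fun x => x.1 < x.2 ∧
            AlmostPrime ((N : ℝ) ^ (38 / 100 : ℝ)) 3 ((h + ((x.2 : ℤ) - x.1)) ^ 2 + 1))).card : ℝ)) ∧
    -- (2) power saving: sets with at least `N ^ (1 - κ)` elements, shifted differences
    (∃ κ : ℝ, 0 < κ ∧ ∀ B : ℕ, ∃ r : ℕ, ∀ ε : ℝ, 0 < ε → ∃ N₀ : ℕ, ∀ N : ℕ, N₀ ≤ N →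
      ∀ h : ℤ, |h| ≤ (N : ℤ) ^ B → Rough ((N : ℝ) ^ κ) (h ^ 2 + 1) →
      ∀ (u : ℕ) (A : Finset ℕ), A ⊆ Ioc u (u + N) → (N : ℝ) ^ (1 - κ) ≤ A.card →
        (A.card : ℝ) ^ 2 * (N : ℝ) ^ (-ε) ≤
          ((A ×ˢ A).filter (fun x : ℕ × ℕ => x.1 < x.2 ∧
            AlmostPrime ((N : ℝ) ^ κ) r ((h + ((x.2 : ℤ) - x.1)) ^ 2 + 1) ∧
            AlmostPrime ((N : ℝ) ^ κ) r ((h - ((x.2 : ℤ) - x.1)) ^ 2 + 1))).card) :=
  ⟨three, sparse_sq⟩

end Pool.Agent.Results.MP_484c84_nt.DifferenceSets
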