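import Pool.Agent.H31.DG.Dig

set_option autoImplicit false

/-!
# The digits of the integers `n` for which `n ^ 2 + 1` is almost prime

Let `q ≥ 2`, and let `T` be the power of `q` with `T ≤ √N < q T`, so that `n ↦ (n % T, n / T)` splits the digits of `n < N`
in base `q` into the lower half and the upper half. It is shown that the integers `n < N` for which `n ^ 2 + 1` has no prime
factor `≤ y`, where `y` is a small power of `N` (so that `n ^ 2 + 1` is an almost prime), do not correlate with any function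
`F (n) = ∑ i < m, G i (n % T) * H i (n / T)` for ARBITRARY `G i`, `H i` with values in the unit disc: the mean value of
`F` along these `n` is up to `ε` the mean value of `F` over the `n < N` for which `n ^ 2 + 1` has no prime factor `≤ w`, where
`w` is a constant which depends on `q`, `m` and `ε` only (finitely many residue classes). Every function which is computed
by a finite automaton from the digits of `n` is of this kind. In particular the sum of the digits of `n` is equidistributed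
in the residue classes modulo `m` along these `n` if `m` is coprime to `q - 1`.

Proof. Let `f` be the difference of the indicator function of the first set and of the indicator function of the second one,
multiplied by the product of `1 - ρ (p) / p` over the primes `w < p ≤ y`. The bilinear sum of `G (a) H (b) f (a + T b)`
is estimated with Cauchy's inequality, and the sums over `a` of `f (a + T b) f (a + T b')` by the fundamental lemma
for the polynomials `((X + T b) ^ 2 + 1) ((X + T b') ^ 2 + 1)`; their singular series are estimated on average over `b` and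
`b'`. For the sum of digits the mean value over residue classes tends to zero by Gelfond's argument.
-/

namespace Pool.Agent.Results.MP_484c84_nt.DigitFunctions

open Finset Filter

open Classical in
/-- The integers `0 ≤ n < N` for which all prime factors of `n ^ 2 + 1` are larger than `y`. -/
noncomputable def rough (y N : ℕ) : Finset ℕ := (range N).filter (fun n => ∀ p : ℕ, p.Prime → p ∣ n ^ 2 + 1 → y < p)

/-- The mean value of a function over a finite set. -/
noncomputable def mean (S : Finset ℕ) (g : ℕ → ℂ) : ℂ := (∑ n ∈ S, g n) / (S.card : ℂ)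

/-- `F` is a sum of `m` products of a function of `n % T` and a function of `n / T`, all of modulus at most one. -/
def SplitRank (T m : ℕ) (F : ℕ → ℂ) : Prop := ∃ G H : Fin m → ℕ → ℂ,
  (∀ i n, ‖G i n‖ ≤ 1) ∧ (∀ i n, ‖H i n‖ ≤ 1) ∧ ∀ n, F n = ∑ i, G i (n % T) * H i (n / T)

open Pool.Agent.H31.MF Pool.Agent.H373R2.T7 Pool.Agent.H31.DG Pool.Agent.H807R2.Dav

lemma rough_iff (y n : ℕ) : (∀ p : ℕ, p.Prime → p ∣ n ^ 2 + 1 → y < p) ↔ Rgh y n := by
  unfold Rgh
  constructor
  · intro h p hp hd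
    rw [mem_pz] at hp
    have := h p hp.2 hd
    omega
  · intro h p hp hd
    by_contra h1
    exact h p (mem_pz.2 ⟨by omega, hp⟩) hd

lemma sum_rough (y N : ℕ) (g : ℕ → ℂ) : ∑ n ∈ rough y N, g n = ∑ n ∈ range N, g n * (ind y n : ℂ) := by
  classical
  unfold rough ind
  rw [sum_filter]
  apply sum_congr rfl
  intro n _
  simp only [rough_iff]
  split_ifs <;> simp

lemma card_rough (y N : ℕ) : ((rough y N).card : ℝ) = ∑ n ∈ range N, ind y n := by
  classical
  unfold rough ind
  rw [card_filter]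
  push_cast
  apply sum_congr rfl
  intro n _
  simp only [rough_iff]

lemma mean_close (w y N : ℕ) (hN : 1 ≤ N) (hwy : w ≤ y) (δ δ' : ℝ) (hδ1 : δ ≤ 1 / 2) (g : ℕ → ℂ) (m : ℝ) (hm : 1 ≤ m) (hg : ∀ n, ‖g n‖ ≤ m)
    (h1 : ‖∑ n ∈ range N, g n * (ff w y n : ℂ)‖ ≤ δ' * (N * V y))
    (h2 : |∑ n ∈ range N, ind y n - N * V y| ≤ δ * (N * V y))
    (h3 : |∑ n ∈ range N, ind w n - N * V w| ≤ δ * (N * V w)) :
    ‖mean (rough y N) g - mean (rough w N) g‖ ≤ 2 * δ' + 4 * m * δ := by
  have hN0 : (0 : ℝ) < N := by exact_mod_cast hN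
  have hv := vv_pos w y
  have hVy := V_pos y
  have hVw := V_pos w
  rw [← card_rough] at h2 h3
  unfold mean
  set A : ℝ := N * V y with hA
  set B : ℝ := N * V w with hB
  have hA0 : 0 < A := by positivity
  have hB0 : 0 < B := by positivity
  have hAB : A = vv w y * B := by rw [hA, hB, V_split hwy]; ring
  set R : ℝ := ((rough y N).card : ℝ) with hR
  set S : ℝ := ((rough w N).card : ℝ) with hS
  have e0 : ∑ n ∈ range N, g n * (ff w y n : ℂ) = ∑ n ∈ rough y N, g n - (vv w y : ℂ) * ∑ n ∈ rough w N, g n := by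
    rw [sum_rough, sum_rough, mul_sum, ← sum_sub_distrib]
    apply sum_congr rfl
    intro n _
    unfold ff
    push_cast
    ring
  rw [e0] at h1
  have hGw : ‖∑ n ∈ rough w N, g n‖ ≤ m * S := by
    refine (norm_sum_le _ _).trans ((sum_le_sum fun n _ => hg n).trans ?_)
    rw [sum_const, nsmul_eq_mul, mul_comm]
  obtain ⟨h2a, h2b⟩ := abs_le.1 h2
  obtain ⟨h3a, h3b⟩ := abs_le.1 h3
  have hδA : δ * A ≤ 1 / 2 * A := mul_le_mul_of_nonneg_right hδ1 hA0.le
  have hδB : δ * B ≤ 1 / 2 * B := mul_le_mul_of_nonneg_right hδ1 hB0.le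
  have hR1 : A / 2 ≤ R := by linarith
  have hS1 : B / 2 ≤ S := by linarith
  have hR0 : 0 < R := by linarith
  have hS0 : 0 < S := by linarith
  set G := ∑ n ∈ rough y N, g n
  set H := ∑ n ∈ rough w N, g n
  have hRc : ((rough y N).card : ℂ) = (R : ℂ) := by rw [hR]; push_cast; rfl
  have hSc : ((rough w N).card : ℂ) = (S : ℂ) := by rw [hS]; push_cast; rfl
  rw [hRc, hSc]
  have hRn : (R : ℂ) ≠ 0 := by exact_mod_cast hR0.ne'
  have hSn : (S : ℂ) ≠ 0 := by exact_mod_cast hS0.ne'
  have e1 : G / (R : ℂ) - H / (S : ℂ) = (G - (vv w y : ℂ) * H) / (R : ℂ) + (H / (S : ℂ)) * (((vv w y * S - R) / R : ℝ) : ℂ) := by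
    push_cast
    field_simp
    ring
  rw [e1]
  refine (norm_add_le _ _).trans ?_
  rw [norm_div, norm_mul, norm_div, Complex.norm_real, Complex.norm_real, Complex.norm_real, Real.norm_of_nonneg hR0.le,
    Real.norm_of_nonneg hS0.le, Real.norm_eq_abs, abs_div, abs_of_pos hR0]
  have nonneg_of : ∀ x : ℝ, 0 ≤ x * A → 0 ≤ x := by
    intro x hx
    by_contra h
    push Not at h
    have := mul_neg_of_neg_of_pos h hA0
    linarith
  have hδ' : 0 ≤ δ' := nonneg_of _ ((norm_nonneg _).trans h1)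
  have hδ0 : 0 ≤ δ := nonneg_of _ ((abs_nonneg _).trans h2)
  have k1 : ‖G - (vv w y : ℂ) * H‖ / R ≤ 2 * δ' := by
    rw [div_le_iff₀ hR0]
    have : δ' * (A / 2) ≤ δ' * R := mul_le_mul_of_nonneg_left hR1 hδ'
    linarith
  have k2 : ‖H‖ / S ≤ m := by
    rw [div_le_iff₀ hS0]; exact hGw
  have k3 : |vv w y * S - R| ≤ 2 * (δ * A) := by
    have e2 : vv w y * S - R = vv w y * (S - B) - (R - A) := by rw [hAB]; ring
    rw [e2]
    refine (abs_sub _ _).trans ?_
    rw [abs_mul, abs_of_pos hv]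
    have e3 : vv w y * |S - B| ≤ vv w y * (δ * B) := mul_le_mul_of_nonneg_left h3 hv.le
    have e4 : vv w y * (δ * B) = δ * A := by rw [hAB]; ring
    linarith
  have k4 : |vv w y * S - R| / R ≤ 4 * δ := by
    rw [div_le_iff₀ hR0]
    have : δ * (A / 2) ≤ δ * R := mul_le_mul_of_nonneg_left hR1 hδ0
    linarith
  have k5 : ‖H‖ / S * (|vv w y * S - R| / R) ≤ m * (4 * δ) := mul_le_mul k2 k4 (by positivity) (by linarith)
  linarith

lemma split_bound (m w y N T : ℕ) (δ : ℝ) (F : ℕ → ℂ) (hF : SplitRank T m F)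
    (h : ∀ G H : ℕ → ℂ, (∀ n, ‖G n‖ ≤ 1) → (∀ n, ‖H n‖ ≤ 1) →
      ‖∑ n ∈ range N, G (n % T) * H (n / T) * (ff w y n : ℂ)‖ ≤ δ * (N * V y)) :
    ‖∑ n ∈ range N, F n * (ff w y n : ℂ)‖ ≤ (m * δ) * (N * V y) := by
  obtain ⟨G, H, h1, h2, h3⟩ := hF
  have e : ∑ n ∈ range N, F n * (ff w y n : ℂ) = ∑ i, ∑ n ∈ range N, G i (n % T) * H i (n / T) * (ff w y n : ℂ) := by
    rw [sum_comm]
    apply sum_congr rfl
    intro n _
    rw [h3 n, sum_mul]
  rw [e]
  refine (norm_sum_le _ _).trans ?_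
  calc ∑ i, ‖∑ n ∈ range N, G i (n % T) * H i (n / T) * (ff w y n : ℂ)‖ ≤ ∑ _i : Fin m, δ * (N * V y) :=
        sum_le_sum fun i _ => h (G i) (H i) (h1 i) (h2 i)
    _ = _ := by rw [sum_const, card_univ, Fintype.card_fin, nsmul_eq_mul]; ring

lemma split_norm (T m : ℕ) (F : ℕ → ℂ) (hF : SplitRank T m F) (n : ℕ) : ‖F n‖ ≤ m := by
  obtain ⟨G, H, h1, h2, h3⟩ := hF
  rw [h3 n]
  refine (norm_sum_le _ _).trans ?_
  calc ∑ i, ‖G i (n % T) * H i (n / T)‖ ≤ ∑ _i : Fin m, (1 : ℝ) := by
        apply sum_le_sum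
        intro i _
        rw [norm_mul]
        exact mul_le_one₀ (h1 i _) (norm_nonneg _) (h2 i _)
    _ = m := by rw [sum_const, card_univ, Fintype.card_fin, nsmul_eq_mul, mul_one]

lemma ee_pow (x : ℝ) (n : ℕ) : ee ((n : ℝ) * x) = ee x ^ n := by
  unfold ee
  rw [← Complex.exp_nat_mul]
  congr 1
  push_cast
  ring

/-- from exponential sums to residue classes -/
lemma classes_of_sums (S : Finset ℕ) (s : ℕ → ℕ) (m a : ℕ) (hm : 1 ≤ m) (ε : ℝ) (hε : 0 ≤ ε)
    (h : ∀ t : ℕ, 0 < t → t < m → ‖∑ n ∈ S, ee ((t : ℝ) / m) ^ s n‖ ≤ ε * S.card) :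
    |((S.filter (fun n => s n ≡ a [MOD m])).card : ℝ) - S.card / m| ≤ ε * S.card := by
  classical
  have hm0 : (0 : ℝ) < m := by exact_mod_cast hm
  have e1 : (m : ℂ) * ((S.filter (fun n => s n ≡ a [MOD m])).card : ℂ) =
      ∑ t ∈ range m, ee (-((t : ℝ) * (a / m))) * ∑ n ∈ S, ee ((t : ℝ) / m) ^ s n := by
    rw [card_filter]
    push_cast
    rw [mul_sum]
    have e2 : ∀ n ∈ S, (m : ℂ) * (if s n ≡ a [MOD m] then (1 : ℂ) else 0) =
        ∑ t ∈ range m, ee (-((t : ℝ) * (a / m))) * ee ((t : ℝ) / m) ^ s n := by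
      intro n _
      have h1 := orth m hm ((s n : ℤ) - a)
      have h2 : ∑ t ∈ range m, ee (-((t : ℝ) * (a / m))) * ee ((t : ℝ) / m) ^ s n =
          ∑ t ∈ range m, ee ((t : ℝ) * ((((s n : ℤ) - a : ℤ) : ℝ) / m)) := by
        apply sum_congr rfl
        intro t _
        rw [← ee_pow, ← ee_add]
        congr 1
        push_cast
        field_simp
        ring
      rw [h2, h1]
      have h3 : (s n ≡ a [MOD m]) ↔ (m : ℤ) ∣ (s n : ℤ) - a := by
        rw [← Nat.modEq_iff_dvd]
        exact ⟨fun h => h.symm, fun h => h.symm⟩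
      simp only [h3]
      split_ifs <;> simp
    rw [sum_congr rfl e2, sum_comm]
    apply sum_congr rfl
    intro t _
    rw [mul_sum]
  obtain ⟨m', rfl⟩ : ∃ m', m = m' + 1 := ⟨m - 1, by omega⟩
  rw [sum_range_succ'] at e1
  have e0 : ee (-(((0 : ℕ) : ℝ) * (a / ((m' + 1 : ℕ) : ℝ)))) * ∑ n ∈ S, ee (((0 : ℕ) : ℝ) / ((m' + 1 : ℕ) : ℝ)) ^ s n = (S.card : ℂ) := by
    have : ee 0 = 1 := by unfold ee; simp
    simp [this]
  rw [e0] at e1
  set c := (S.filter (fun n => s n ≡ a [MOD m' + 1])).card with hc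
  have e3 : ((((m' + 1 : ℕ) : ℝ) * c - S.card : ℝ) : ℂ) =
      ∑ t ∈ range m', ee (-(((t + 1 : ℕ) : ℝ) * (a / ((m' + 1 : ℕ) : ℝ)))) * ∑ n ∈ S, ee (((t + 1 : ℕ) : ℝ) / ((m' + 1 : ℕ) : ℝ)) ^ s n := by
    have : ((((m' + 1 : ℕ) : ℝ) * c - S.card : ℝ) : ℂ) = ((m' + 1 : ℕ) : ℂ) * (c : ℂ) - (S.card : ℂ) := by push_cast; ring
    rw [this, e1]
    ring
  have e4 : |((m' + 1 : ℕ) : ℝ) * c - S.card| ≤ m' * (ε * S.card) := by
    have : |((m' + 1 : ℕ) : ℝ) * c - S.card| = ‖((((m' + 1 : ℕ) : ℝ) * c - S.card : ℝ) : ℂ)‖ := by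
      rw [Complex.norm_real, Real.norm_eq_abs]
    rw [this, e3]
    refine (norm_sum_le _ _).trans ?_
    calc ∑ t ∈ range m', ‖ee (-(((t + 1 : ℕ) : ℝ) * (a / ((m' + 1 : ℕ) : ℝ)))) * ∑ n ∈ S, ee (((t + 1 : ℕ) : ℝ) / ((m' + 1 : ℕ) : ℝ)) ^ s n‖
        ≤ ∑ _t ∈ range m', ε * S.card := by
          apply sum_le_sum
          intro t ht
          rw [mem_range] at ht
          rw [norm_mul, norm_ee, one_mul]
          exact h (t + 1) (by omega) (by omega)
      _ = _ := by rw [sum_const, card_range, nsmul_eq_mul]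
  have hεS : 0 ≤ ε * S.card := by positivity
  have hm1 : (0 : ℝ) < ((m' + 1 : ℕ) : ℝ) := by positivity
  have e6 : (c : ℝ) - S.card / ((m' + 1 : ℕ) : ℝ) = (((m' + 1 : ℕ) : ℝ) * c - S.card) / ((m' + 1 : ℕ) : ℝ) := by
    field_simp
  rw [e6, abs_div, abs_of_pos hm1, div_le_iff₀ hm1]
  refine e4.trans ?_
  push_cast
  nlinarith

theorem result :
    (∃ c C : ℝ, 0 < c ∧ 0 < C ∧ ∀ q m : ℕ, 2 ≤ q → 1 ≤ m → ∀ ε : ℝ, 0 < ε → ∃ w r : ℕ, 3 ≤ w ∧ ∀ᶠ N : ℕ in atTop,
      ∀ y : ℕ, w ≤ y → y ^ r ≤ N →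
        (c * (N / Real.log y) ≤ ((rough y N).card : ℝ) ∧ ((rough y N).card : ℝ) ≤ C * (N / Real.log y)) ∧
        (∀ z : ℕ, w ≤ z → z ≤ y → ∀ F : ℕ → ℂ, SplitRank (q ^ Nat.log q (Nat.sqrt N)) m F →
          ‖mean (rough y N) F - mean (rough z N) F‖ ≤ ε) ∧
        (m.Coprime (q - 1) → ∀ a : ℕ,
          |(((rough y N).filter (fun n => (Nat.digits q n).sum ≡ a [MOD m])).card : ℝ) / (rough y N).card - 1 / m| ≤ ε)) ∧
    (∀ q : ℕ, 2 ≤ q → ∀ (σ : Type) [Fintype σ] (δ : σ → ℕ → σ) (s₀ : σ) (τ : σ → ℂ), (∀ s, ‖τ s‖ ≤ 1) → ∀ j : ℕ,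
      SplitRank (q ^ j) (Fintype.card σ + 1) (fun n => τ ((Nat.digits q n).foldl δ s₀)) ∧
      SplitRank (q ^ j) (Fintype.card σ + 1) (fun n => τ ((Nat.digits q n).reverse.foldl δ s₀))) ∧
    (∀ k y N : ℕ, 1 ≤ k → N ≤ (y + 1) ^ k → ∀ n ∈ rough y N, (n ^ 2 + 1).primeFactorsList.length < 2 * k) := by
  classical
  refine ⟨?_, ?_, ?_⟩
  · obtain ⟨c, C, hc, hC, hV⟩ := V_order
    refine ⟨c / 2, 2 * C, by positivity, by positivity, fun q m hq hm ε hε => ?_⟩
    have hm0 : (1 : ℝ) ≤ m := by exact_mod_cast hm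
    obtain ⟨δ, hδd⟩ : ∃ δ, δ = min (ε / (12 * m)) (1 / 2) := ⟨_, rfl⟩
    have hδ0 : 0 < δ := by rw [hδd]; exact lt_min (by positivity) (by norm_num)
    have hδ1 : δ ≤ 1 / 2 := by rw [hδd]; exact min_le_right _ _
    have hδ2 : 12 * m * δ ≤ ε := by
      have : δ ≤ ε / (12 * m) := by rw [hδd]; exact min_le_left _ _
      rw [le_div_iff₀ (by positivity)] at this
      linarith
    obtain ⟨w, r, hw4, hwq, hr, hmain⟩ := main2 q hq δ hδ0
    refine ⟨w, r, by omega, ?_⟩
    have hVw := V_pos w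
    have hdig : ∀ᶠ N : ℕ in atTop, ∀ t ∈ (range m).filter (fun t : ℕ => ee ((t : ℝ) / m) ^ (q - 1) ≠ 1),
        ‖∑ n ∈ range N, ee ((t : ℝ) / m) ^ sd q n * (ind w n : ℂ)‖ ≤ (δ * V w) * N := by
      rw [eventually_all_finset]
      intro t ht
      rw [mem_filter] at ht
      exact dig_classes q hq (ee ((t : ℝ) / m)) (norm_ee _) ht.2 w (δ * V w) (by positivity)
    filter_upwards [hmain, hdig, eventually_ge_atTop 1] with N h1 h2 hN y hwy hyr
    have hN0 : (0 : ℝ) < N := by exact_mod_cast hN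
    have hwr : w ^ r ≤ N := (Nat.pow_le_pow_left hwy r).trans hyr
    have my := h1 y hwy hyr
    have mw := h1 w le_rfl hwr
    refine ⟨?_, ?_, ?_⟩
    · have hlog : 0 < Real.log y := Real.log_pos (by exact_mod_cast (by omega : 1 < y))
      obtain ⟨g1, g2⟩ := hV y (by omega)
      have g3 := abs_le.1 my.2
      rw [← card_rough] at g3
      have hNV : 0 < N * V y := by have := V_pos y; positivity
      have g4 : δ * (N * V y) ≤ 1 / 2 * (N * V y) := mul_le_mul_of_nonneg_right hδ1 hNV.le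
      have g5 : N * (c / Real.log y) ≤ N * V y := mul_le_mul_of_nonneg_left g1 hN0.le
      have g6 : N * V y ≤ N * (C / Real.log y) := mul_le_mul_of_nonneg_left g2 hN0.le
      have e1 : c / 2 * (N / Real.log y) = 1 / 2 * (N * (c / Real.log y)) := by ring
      have e2 : 2 * C * (N / Real.log y) = 2 * (N * (C / Real.log y)) := by ring
      rw [e1, e2]
      constructor
      · linarith
      · linarith
    · intro z hwz hzy F hF
      have hzr : z ^ r ≤ N := (Nat.pow_le_pow_left hzy r).trans hyr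
      have mz := h1 z hwz hzr
      have k1 := mean_close w y N hN hwy δ (m * δ) hδ1 F m hm0 (split_norm _ m F hF) (split_bound m w y N _ δ F hF my.1) my.2 mw.2
      have k2 := mean_close w z N hN hwz δ (m * δ) hδ1 F m hm0 (split_norm _ m F hF) (split_bound m w z N _ δ F hF mz.1) mz.2 mw.2
      calc ‖mean (rough y N) F - mean (rough z N) F‖ =
            ‖(mean (rough y N) F - mean (rough w N) F) - (mean (rough z N) F - mean (rough w N) F)‖ := by
              congr 1; ring
        _ ≤ (2 * (m * δ) + 4 * m * δ) + (2 * (m * δ) + 4 * m * δ) := (norm_sub_le _ _).trans (add_le_add k1 k2)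
        _ ≤ ε := by linarith
    · intro hcop a
      have hS0 : 0 < ((rough y N).card : ℝ) := by
        have g3 := (abs_le.1 my.2).1
        rw [← card_rough] at g3
        have hNV : 0 < N * V y := by have := V_pos y; positivity
        have g4 : δ * (N * V y) ≤ 1 / 2 * (N * V y) := mul_le_mul_of_nonneg_right hδ1 hNV.le
        linarith
      have key : ∀ t : ℕ, 0 < t → t < m → ‖∑ n ∈ rough y N, ee ((t : ℝ) / m) ^ sd q n‖ ≤ ε * (rough y N).card := by
        intro t ht0 htm
        set ζ := ee ((t : ℝ) / m) with hζ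
        have hζn : ‖ζ‖ = 1 := norm_ee _
        have hζ1 : ζ ^ (q - 1) ≠ 1 := by
          intro h
          rw [hζ, ← ee_pow] at h
          unfold ee at h
          rw [Complex.exp_eq_one_iff] at h
          obtain ⟨n, hn⟩ := h
          have hpi : (2 * (Real.pi : ℂ) * Complex.I) ≠ 0 := by
            simp [Real.pi_ne_zero, Complex.I_ne_zero]
          have h5 : ((((q - 1 : ℕ) : ℝ) * ((t : ℝ) / m) : ℝ) : ℂ) = (n : ℂ) := by
            apply mul_left_cancel₀ hpi
            rw [mul_comm (2 * (Real.pi : ℂ) * Complex.I) (n : ℂ), ← hn]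
            try ring
          have h6 : (((q - 1 : ℕ) : ℝ) * ((t : ℝ) / m) : ℝ) = (n : ℝ) := by exact_mod_cast h5
          have hm0' : (m : ℝ) ≠ 0 := by positivity
          have h7 : (((q - 1 : ℕ) : ℝ) * (t : ℝ) : ℝ) = (n : ℝ) * m := by
            rw [← h6]
            field_simp
          have h8 : (((q - 1 : ℕ) : ℤ) * (t : ℤ)) = n * m := by exact_mod_cast h7
          have h9 : (m : ℤ) ∣ (((q - 1) * t : ℕ) : ℤ) := by
            rw [Nat.cast_mul, h8]
            exact dvd_mul_left _ _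
          have h10 : m ∣ (q - 1) * t := by exact_mod_cast h9
          have h11 : m ∣ t := hcop.dvd_of_dvd_mul_left h10
          have := Nat.le_of_dvd ht0 h11
          omega
        have hg : ∀ n, ‖ζ ^ sd q n‖ ≤ 1 := fun n => by rw [norm_pow, hζn, one_pow]
        have hsplit : SplitRank (q ^ Nat.log q (Nat.sqrt N)) 1 (fun n => ζ ^ sd q n) := sd_rank q (by omega) ζ hζn _
        have hb := split_bound 1 w y N _ δ _ hsplit my.1
        have k1 := mean_close w y N hN hwy δ _ hδ1 (fun n => ζ ^ sd q n) 1 le_rfl hg hb my.2 mw.2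
        have k2 : ‖mean (rough w N) (fun n => ζ ^ sd q n)‖ ≤ 2 * δ := by
          unfold mean
          rw [sum_rough, norm_div, Complex.norm_natCast]
          have g3 := (abs_le.1 mw.2).1
          rw [← card_rough] at g3
          have hNV : 0 < N * V w := by positivity
          have g4 : δ * (N * V w) ≤ 1 / 2 * (N * V w) := mul_le_mul_of_nonneg_right hδ1 hNV.le
          have hS : (N * V w) / 2 ≤ ((rough w N).card : ℝ) := by linarith
          have hS0 : 0 < ((rough w N).card : ℝ) := by linarith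
          rw [div_le_iff₀ hS0]
          have h3 := h2 t (mem_filter.2 ⟨mem_range.2 htm, hζ1⟩)
          calc ‖∑ n ∈ range N, ζ ^ sd q n * (ind w n : ℂ)‖ ≤ δ * V w * N := h3
            _ = 2 * δ * ((N * V w) / 2) := by ring
            _ ≤ _ := mul_le_mul_of_nonneg_left hS (by positivity)
        have k3 : ‖mean (rough y N) (fun n => ζ ^ sd q n)‖ ≤ ε := by
          have hδm : 12 * δ ≤ 12 * m * δ := by nlinarith
          calc ‖mean (rough y N) (fun n => ζ ^ sd q n)‖ =
                ‖(mean (rough y N) (fun n => ζ ^ sd q n) - mean (rough w N) (fun n => ζ ^ sd q n)) + mean (rough w N) (fun n => ζ ^ sd q n)‖ := by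
                congr 1; ring
            _ ≤ (2 * (((1 : ℕ) : ℝ) * δ) + 4 * 1 * δ) + 2 * δ := (norm_add_le _ _).trans (add_le_add k1 k2)
            _ ≤ ε := by push_cast; linarith
        unfold mean at k3
        rw [norm_div, Complex.norm_natCast, div_le_iff₀ hS0] at k3
        exact k3
      have h3 := classes_of_sums (rough y N) (sd q) m a hm ε hε.le key
      have e : (((rough y N).filter (fun n => (Nat.digits q n).sum ≡ a [MOD m])).card : ℝ) / (rough y N).card - 1 / m =
          ((((rough y N).filter (fun n => sd q n ≡ a [MOD m])).card : ℝ) - (rough y N).card / m) / (rough y N).card := by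
        have hm0' : (m : ℝ) ≠ 0 := by positivity
        have hS0' := hS0.ne'
        unfold sd
        field_simp
      rw [e, abs_div, abs_of_pos hS0, div_le_iff₀ hS0]
      exact h3
  · intro q hq σ _ δ s₀ τ hτ j
    exact ⟨aut_low q (by omega) δ s₀ τ hτ j, aut_high q (by omega) δ s₀ τ hτ j⟩
  · intro k y N hk hN n hn
    unfold rough at hn
    rw [mem_filter, mem_range] at hn
    obtain ⟨hnN, hn2⟩ := hn
    rcases Nat.eq_zero_or_pos n with hn0 | hn0
    · subst hn0
      simp
      omega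
    have h1 : (y + 1) ^ (n ^ 2 + 1).primeFactorsList.length ≤ n ^ 2 + 1 := by
      conv_rhs => rw [← Nat.prod_primeFactorsList (show n ^ 2 + 1 ≠ 0 by omega)]
      apply List.pow_card_le_prod
      intro p hp
      exact hn2 p (Nat.prime_of_mem_primeFactorsList hp) (Nat.dvd_of_mem_primeFactorsList hp)
    by_contra h
    push Not at h
    have h2 : (y + 1) ^ (2 * k) ≤ n ^ 2 + 1 := le_trans (Nat.pow_le_pow_right (by omega) h) h1
    have h3 : n + 1 ≤ (y + 1) ^ k := by omega
    have h4 : (n + 1) ^ 2 ≤ ((y + 1) ^ k) ^ 2 := Nat.pow_le_pow_left h3 2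
    have h5 : ((y + 1) ^ k) ^ 2 = (y + 1) ^ (2 * k) := by rw [← pow_mul, mul_comm]
    nlinarith

end Pool.Agent.Results.MP_484c84_nt.DigitFunctions
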