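import Pool.Agent.H31.MF.Liou

set_option autoImplicit false

/-!
# Multiplicative functions along the integers `n` for which `n ^ 2 + 1` is almost prime

The integers `n ≤ N` for which `n ^ 2 + 1` has no prime factor `≤ y`, where `y` is a small power of `N` (so that `n ^ 2 + 1`
is an almost prime), do not correlate with ANY multiplicative function `g` with values in the unit disc: the mean value of
`g` along these `n` (there are about `N / log N` of them) is up to `ε` the mean value of `g` over the `n ≤ N` for which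
`n ^ 2 + 1` has no prime factor `≤ w`, where `w` is a constant which depends on `ε` only, so over finitely many residue
classes. This is uniform in all `g`, and `g` may depend on `N`; for instance `g (n) = exp (i t f (n))` for an arbitrary
additive function `f` and any real `t`. In particular the Liouville function `λ (n)` takes the values `1` and `-1`
asymptotically equally often along these `n`.

Proof. Let `f` be the difference of the indicator function of the first set and of the indicator function of the second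
one, multiplied by the product of `1 - ρ (p) / p` over the primes `w < p ≤ y`. Katai's method in a weighted form: the
inequality of Turan and Kubilius is proved for the two sets (fundamental lemma of the sieve), with the prime factors
between `2 ^ k` and `2 ^ (k ^ 2)`, where `k` is about the square root of `log N`; then the bilinear sums over
`f (p m) f (q m)` for two primes `p ≠ q` are bounded by the fundamental lemma for the polynomials
`((p X) ^ 2 + 1) ((q X) ^ 2 + 1)`, whose singular series are estimated on average over `p` and `q` with the inequality of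
Brun and Titchmarsh. Because `f` is not bounded compared to its mean, the primes `p` have to be larger than any power of
`log N`. For the Liouville function the mean value over the residue classes tends to zero by Davenport's theorem.
-/

namespace Pool.Agent.Results.MP_484c84_nt.MultiplicativeFunctions

open Finset Filter

open Classical in
/-- The integers `1 ≤ n ≤ N` for which all prime factors of `n ^ 2 + 1` are larger than `y`. -/
noncomputable def rough (y N : ℕ) : Finset ℕ := (Icc 1 N).filter (fun n => ∀ p : ℕ, p.Prime → p ∣ n ^ 2 + 1 → y < p)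

/-- The mean value of a function over a finite set. -/
noncomputable def mean (S : Finset ℕ) (g : ℕ → ℂ) : ℂ := (∑ n ∈ S, g n) / (S.card : ℂ)

open Pool.Agent.H31.MF Pool.Agent.H373R2.T7

lemma rough_iff (y n : ℕ) : (∀ p : ℕ, p.Prime → p ∣ n ^ 2 + 1 → y < p) ↔ Rgh y n := by
  unfold Rgh
  constructor
  · intro h p hp hd
    rw [mem_pz] at hp
    have := h p hp.2 hd
    omega
  · intro h p hp hd
    by_contra h1
    exact h p (mem_pz.2 ⟨by omega, hp⟩) hd

lemma sum_rough (y N : ℕ) (g : ℕ → ℂ) : ∑ n ∈ rough y N, g n = ∑ n ∈ Icc 1 N, g n * (ind y n : ℂ) := by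
  classical
  unfold rough ind
  rw [sum_filter]
  apply sum_congr rfl
  intro n _
  simp only [rough_iff]
  split_ifs <;> simp

lemma card_rough (y N : ℕ) : ((rough y N).card : ℝ) = ∑ n ∈ Icc 1 N, ind y n := by
  classical
  unfold rough ind
  rw [card_filter]
  push_cast
  apply sum_congr rfl
  intro n _
  simp only [rough_iff]

lemma mean_close (w y N : ℕ) (hN : 1 ≤ N) (hwy : w ≤ y) (δ : ℝ) (hδ1 : δ ≤ 1 / 2) (g : ℕ → ℂ) (hg : ∀ n, ‖g n‖ ≤ 1)
    (h1 : ‖∑ n ∈ Icc 1 N, g n * (ff w y n : ℂ)‖ ≤ δ * (N * V y))
    (h2 : |∑ n ∈ Icc 1 N, ind y n - N * V y| ≤ δ * (N * V y))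
    (h3 : |∑ n ∈ Icc 1 N, ind w n - N * V w| ≤ δ * (N * V w)) :
    ‖mean (rough y N) g - mean (rough w N) g‖ ≤ 6 * δ := by
  have hN0 : (0 : ℝ) < N := by exact_mod_cast hN
  have hv := vv_pos w y
  have hVy := V_pos y
  have hVw := V_pos w
  rw [← card_rough] at h2 h3
  unfold mean
  set A : ℝ := N * V y with hA
  set B : ℝ := N * V w with hB
  have hA0 : 0 < A := by positivity
  have hB0 : 0 < B := by positivity
  have hAB : A = vv w y * B := by rw [hA, hB, V_split hwy]; ring
  set R : ℝ := ((rough y N).card : ℝ) with hR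
  set S : ℝ := ((rough w N).card : ℝ) with hS
  have e0 : ∑ n ∈ Icc 1 N, g n * (ff w y n : ℂ) = ∑ n ∈ rough y N, g n - (vv w y : ℂ) * ∑ n ∈ rough w N, g n := by
    rw [sum_rough, sum_rough, mul_sum, ← sum_sub_distrib]
    apply sum_congr rfl
    intro n _
    unfold ff
    push_cast
    ring
  rw [e0] at h1
  have hGw : ‖∑ n ∈ rough w N, g n‖ ≤ S := by
    refine (norm_sum_le _ _).trans ((sum_le_sum fun n _ => hg n).trans ?_)
    rw [sum_const, nsmul_eq_mul, mul_one]
  obtain ⟨h2a, h2b⟩ := abs_le.1 h2
  obtain ⟨h3a, h3b⟩ := abs_le.1 h3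
  have hδA : δ * A ≤ 1 / 2 * A := mul_le_mul_of_nonneg_right hδ1 hA0.le
  have hδB : δ * B ≤ 1 / 2 * B := mul_le_mul_of_nonneg_right hδ1 hB0.le
  have hR1 : A / 2 ≤ R := by linarith
  have hS1 : B / 2 ≤ S := by linarith
  have hR0 : 0 < R := by linarith
  have hS0 : 0 < S := by linarith
  set G := ∑ n ∈ rough y N, g n
  set H := ∑ n ∈ rough w N, g n
  have hRc : ((rough y N).card : ℂ) = (R : ℂ) := by rw [hR]; push_cast; rfl
  have hSc : ((rough w N).card : ℂ) = (S : ℂ) := by rw [hS]; push_cast; rfl
  rw [hRc, hSc]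
  have hRn : (R : ℂ) ≠ 0 := by exact_mod_cast hR0.ne'
  have hSn : (S : ℂ) ≠ 0 := by exact_mod_cast hS0.ne'
  have e1 : G / (R : ℂ) - H / (S : ℂ) = (G - (vv w y : ℂ) * H) / (R : ℂ) + (H / (S : ℂ)) * (((vv w y * S - R) / R : ℝ) : ℂ) := by
    push_cast
    field_simp
    ring
  rw [e1]
  refine (norm_add_le _ _).trans ?_
  rw [norm_div, norm_mul, norm_div, Complex.norm_real, Complex.norm_real, Complex.norm_real, Real.norm_of_nonneg hR0.le,
    Real.norm_of_nonneg hS0.le, Real.norm_eq_abs, abs_div, abs_of_pos hR0]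
  have k1 : ‖G - (vv w y : ℂ) * H‖ / R ≤ 2 * δ := by
    rw [div_le_iff₀ hR0]
    have hδ0 : 0 ≤ δ * A := (norm_nonneg _).trans h1
    have hδ0' : 0 ≤ δ := by
      by_contra h
      push Not at h
      have := mul_neg_of_neg_of_pos h hA0
      linarith
    have : δ * (A / 2) ≤ δ * R := mul_le_mul_of_nonneg_left hR1 hδ0'
    linarith
  have k2 : ‖H‖ / S ≤ 1 := by
    rw [div_le_one hS0]; exact hGw
  have k3 : |vv w y * S - R| ≤ 2 * (δ * A) := by
    have e2 : vv w y * S - R = vv w y * (S - B) - (R - A) := by rw [hAB]; ring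
    rw [e2]
    refine (abs_sub _ _).trans ?_
    rw [abs_mul, abs_of_pos hv]
    have e3 : vv w y * |S - B| ≤ vv w y * (δ * B) := mul_le_mul_of_nonneg_left h3 hv.le
    have e4 : vv w y * (δ * B) = δ * A := by rw [hAB]; ring
    linarith
  have k4 : |vv w y * S - R| / R ≤ 4 * δ := by
    rw [div_le_iff₀ hR0]
    have hδ0 : 0 ≤ δ * A := (norm_nonneg _).trans h1
    have hδ0' : 0 ≤ δ := by
      by_contra h
      push Not at h
      have := mul_neg_of_neg_of_pos h hA0
      linarith
    have : δ * (A / 2) ≤ δ * R := mul_le_mul_of_nonneg_left hR1 hδ0'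
    linarith
  have k5 : ‖H‖ / S * (|vv w y * S - R| / R) ≤ 1 * (4 * δ) := mul_le_mul k2 k4 (by positivity) (by norm_num)
  linarith

theorem result :
    (∃ c C : ℝ, 0 < c ∧ 0 < C ∧ ∀ ε : ℝ, 0 < ε → ∃ w r : ℕ, 3 ≤ w ∧ ∀ᶠ N : ℕ in atTop,
      ∀ y : ℕ, w ≤ y → y ^ r ≤ N →
        (c * (N / Real.log y) ≤ ((rough y N).card : ℝ) ∧ ((rough y N).card : ℝ) ≤ C * (N / Real.log y)) ∧
        (∀ z : ℕ, w ≤ z → z ≤ y → ∀ g : ℕ → ℂ, (∀ n, ‖g n‖ ≤ 1) →
          (∀ m n : ℕ, m.Coprime n → g (m * n) = g m * g n) →
          ‖mean (rough y N) g - mean (rough z N) g‖ ≤ ε) ∧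
        ‖mean (rough y N) (fun n => (-1) ^ ArithmeticFunction.cardFactors n)‖ ≤ ε) ∧
    (∀ k y N : ℕ, N < (y + 1) ^ k → ∀ n ∈ rough y N, (n ^ 2 + 1).primeFactorsList.length < 2 * k) := by
  classical
  constructor
  · obtain ⟨c, C, hc, hC, hV⟩ := V_order
    refine ⟨c / 2, 2 * C, by positivity, by positivity, fun ε hε => ?_⟩
    obtain ⟨δ, hδd⟩ : ∃ δ, δ = min (ε / 12) (1 / 2) := ⟨_, rfl⟩
    have hδ0 : 0 < δ := by rw [hδd]; exact lt_min (by positivity) (by norm_num)
    have hδ1 : δ ≤ 1 / 2 := by rw [hδd]; exact min_le_right _ _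
    have hδ2 : δ ≤ ε / 12 := by rw [hδd]; exact min_le_left _ _
    obtain ⟨w, r, hw4, hr, hmain⟩ := main δ hδ0
    refine ⟨w, r, by omega, ?_⟩
    have hVw := V_pos w
    have hliou := liou_classes w (δ * V w) (by positivity)
    filter_upwards [hmain, hliou, eventually_ge_atTop 1] with N h1 h2 hN y hwy hyr
    have hN0 : (0 : ℝ) < N := by exact_mod_cast hN
    have hwr : w ^ r ≤ N := (Nat.pow_le_pow_left hwy r).trans hyr
    have my := h1 y hwy hyr
    have mw := h1 w le_rfl hwr
    refine ⟨?_, ?_, ?_⟩
    · have hlog : 0 < Real.log y := Real.log_pos (by exact_mod_cast (by omega : 1 < y))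
      obtain ⟨g1, g2⟩ := hV y (by omega)
      have g3 := abs_le.1 my.2
      rw [← card_rough] at g3
      have hNV : 0 < N * V y := by have := V_pos y; positivity
      have g4 : δ * (N * V y) ≤ 1 / 2 * (N * V y) := mul_le_mul_of_nonneg_right hδ1 hNV.le
      have g5 : N * (c / Real.log y) ≤ N * V y := mul_le_mul_of_nonneg_left g1 hN0.le
      have g6 : N * V y ≤ N * (C / Real.log y) := mul_le_mul_of_nonneg_left g2 hN0.le
      have e1 : c / 2 * (N / Real.log y) = 1 / 2 * (N * (c / Real.log y)) := by ring
      have e2 : 2 * C * (N / Real.log y) = 2 * (N * (C / Real.log y)) := by ring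
      rw [e1, e2]
      constructor
      · linarith
      · linarith
    · intro z hwz hzy g hg hmul
      have hzr : z ^ r ≤ N := (Nat.pow_le_pow_left hzy r).trans hyr
      have mz := h1 z hwz hzr
      have k1 := mean_close w y N hN hwy δ hδ1 g hg (my.1 g hg hmul) my.2 mw.2
      have k2 := mean_close w z N hN hwz δ hδ1 g hg (mz.1 g hg hmul) mz.2 mw.2
      calc ‖mean (rough y N) g - mean (rough z N) g‖ =
            ‖(mean (rough y N) g - mean (rough w N) g) - (mean (rough z N) g - mean (rough w N) g)‖ := by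
              congr 1; ring
        _ ≤ 6 * δ + 6 * δ := (norm_sub_le _ _).trans (add_le_add k1 k2)
        _ ≤ ε := by linarith
    · have hmul : ∀ m n : ℕ, m.Coprime n → liR (m * n) = liR m * liR n := by
        intro m n hmn
        unfold liR
        rcases Nat.eq_zero_or_pos m with hm | hm
        · subst hm
          have : n = 1 := by simpa using hmn
          subst this
          simp
        rcases Nat.eq_zero_or_pos n with hn | hn
        · subst hn
          have : m = 1 := by simpa using hmn
          subst this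
          simp
        rw [ArithmeticFunction.cardFactors_mul (by omega) (by omega), pow_add]
      have k1 := mean_close w y N hN hwy δ hδ1 liR liR_norm (my.1 liR liR_norm hmul) my.2 mw.2
      have k2 : ‖mean (rough w N) liR‖ ≤ 2 * δ := by
        unfold mean
        rw [sum_rough, norm_div, Complex.norm_natCast]
        have g3 := (abs_le.1 mw.2).1
        rw [← card_rough] at g3
        have hNV : 0 < N * V w := by positivity
        have g4 : δ * (N * V w) ≤ 1 / 2 * (N * V w) := mul_le_mul_of_nonneg_right hδ1 hNV.le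
        have hS : (N * V w) / 2 ≤ ((rough w N).card : ℝ) := by linarith
        have hS0 : 0 < ((rough w N).card : ℝ) := by linarith
        rw [div_le_iff₀ hS0]
        calc ‖∑ n ∈ Icc 1 N, liR n * (ind w n : ℂ)‖ ≤ δ * V w * N := h2
          _ = 2 * δ * ((N * V w) / 2) := by ring
          _ ≤ _ := mul_le_mul_of_nonneg_left hS (by positivity)
      have e : (fun n => (-1 : ℂ) ^ ArithmeticFunction.cardFactors n) = liR := rfl
      rw [e]
      calc ‖mean (rough y N) liR‖ = ‖(mean (rough y N) liR - mean (rough w N) liR) + mean (rough w N) liR‖ := by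
            congr 1; ring
        _ ≤ 6 * δ + 2 * δ := (norm_add_le _ _).trans (add_le_add k1 k2)
        _ ≤ ε := by linarith
  · intro k y N hN n hn
    unfold rough at hn
    rw [mem_filter, mem_Icc] at hn
    obtain ⟨⟨hn1, hnN⟩, hn2⟩ := hn
    have h1 : (y + 1) ^ (n ^ 2 + 1).primeFactorsList.length ≤ n ^ 2 + 1 := by
      conv_rhs => rw [← Nat.prod_primeFactorsList (show n ^ 2 + 1 ≠ 0 by omega)]
      apply List.pow_card_le_prod
      intro p hp
      exact hn2 p (Nat.prime_of_mem_primeFactorsList hp) (Nat.dvd_of_mem_primeFactorsList hp)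
    by_contra h
    push Not at h
    have h2 : (y + 1) ^ (2 * k) ≤ n ^ 2 + 1 := le_trans (Nat.pow_le_pow_right (by omega) h) h1
    have h3 : n + 1 ≤ (y + 1) ^ k := by omega
    have h4 : (n + 1) ^ 2 ≤ ((y + 1) ^ k) ^ 2 := Nat.pow_le_pow_left h3 2
    have h5 : ((y + 1) ^ k) ^ 2 = (y + 1) ^ (2 * k) := by rw [← pow_mul, mul_comm]
    nlinarith

end Pool.Agent.Results.MP_484c84_nt.MultiplicativeFunctions
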