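import Pool.Agent.H16.P4.Main
import Pool.Agent.H13.P3.Mom

/-!
# A power saving Sárközy theorem for `n ^ 2 + 1 = P_3`

Every set `A` of at least `N ^ (1 - κ)` integers in an interval of length `N` contains many
`k`-element subsets all whose differences `b - a` are such that `(b - a) ^ 2 + 1` has at most three
prime factors, all larger than `N ^ (1 / 10)`.

The sieve weight for the primes up to `N ^ η` is a square times `1 - #{p : p ∣ n ^ 2 + 1}`, with
essentially nonnegative Fourier coefficients. It is multiplied by a sieve of Brun and Hooley with the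
weights of Richert for the primes between `N ^ η` and `N ^ (10 / 11)`; all error terms only involve
fractions whose denominator has a prime factor larger than `N ^ η`, and so the large sieve gives the
level of distribution `N ^ 0.9985` for every set `A`. The weight of a good difference `n` is at most
`9 ^ ω(n)`; the moments of `ω` turn the weighted sum into a number of pairs, and the pairs into
complete graphs.
-/

set_option autoImplicit false

namespace Pool.Agent.Results.MP_484c84_nt.PowerSavingDifferences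

open Finset

/-- all prime factors of the integer `m` are larger than `y`, and there are at most `r` of them
(counted with multiplicity) -/
def AlmostPrime (y : ℝ) (r : ℕ) (m : ℤ) : Prop :=
  (∀ p : ℕ, p.Prime → (p : ℤ) ∣ m → y < p) ∧ ArithmeticFunction.cardFactors m.natAbs ≤ r

/-- `h ^ 2 + 1` has at most three prime factors, all larger than `N ^ (1 / 10)` -/
def Good (N : ℕ) (h : ℤ) : Prop := AlmostPrime ((N : ℝ) ^ (1 / 10 : ℝ)) 3 (h ^ 2 + 1)

open Classical in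
/-- the pairs `a < b` of elements of `A` with a good difference -/
noncomputable def Pairs (N : ℕ) (A : Finset ℕ) : Finset (ℕ × ℕ) :=
  (A ×ˢ A).filter (fun x : ℕ × ℕ => x.1 < x.2 ∧ Good N ((x.2 : ℤ) - x.1))

open Classical in
/-- the `k`-element subsets of `A` all whose differences are good -/
noncomputable def Cliques (N : ℕ) (A : Finset ℕ) (k : ℕ) : Finset (Finset ℕ) :=
  (A.powersetCard k).filter (fun S : Finset ℕ => ∀ a ∈ S, ∀ b ∈ S, a < b → Good N ((b : ℤ) - a))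

open Classical in
/-- the good integers `1 ≤ h ≤ N` for which all `h * α i` are at distance less than `1 / m` from
the nearest integer -/
noncomputable def Bohr (N : ℕ) {k : ℕ} (m : ℕ) (α : Fin k → ℝ) : Finset ℕ :=
  (Icc 1 N).filter (fun h : ℕ =>
    (∀ i, |(h : ℝ) * α i - round ((h : ℝ) * α i)| < 1 / (m : ℝ)) ∧ Good N h)

theorem result :
    -- (1) sets of `k` elements with good differences
    (∀ k : ℕ, ∀ δ : ℝ, 0 < δ → ∃ C : ℝ, 0 < C ∧ ∃ N₀ : ℕ, ∀ N : ℕ, N₀ ≤ N →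
      ∀ (u : ℕ) (A : Finset ℕ), A ⊆ Ioc u (u + N) → (N : ℝ) ^ (1 - 1 / 400000 : ℝ) ≤ A.card →
        (A.card : ℝ) ^ k * (((A.card : ℝ) / N) ^ δ * Real.log N ^ (-C)) ≤ (Cliques N A k).card) ∧
    -- (2) simultaneous approximation of arbitrary real numbers
    (∀ δ : ℝ, 0 < δ → ∃ C : ℝ, 0 < C ∧ ∃ N₀ : ℕ, ∀ N : ℕ, N₀ ≤ N → ∀ k m : ℕ, 0 < m →
      (m : ℝ) ^ k ≤ (N : ℝ) ^ (28 / 10000000 : ℝ) → ∀ α : Fin k → ℝ,
        N * (((m : ℝ) ^ k) ^ (-(1 + δ)) * Real.log N ^ (-C)) ≤ (Bohr N m α).card) ∧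
    -- (3) the number of pairs
    (∀ δ : ℝ, 0 < δ → ∃ C : ℝ, 0 < C ∧ ∃ N₀ : ℕ, ∀ N : ℕ, N₀ ≤ N →
      ∀ (u : ℕ) (A : Finset ℕ), A ⊆ Ioc u (u + N) → (N : ℝ) ^ (1 - 28 / 10000000 : ℝ) ≤ A.card →
        (A.card : ℝ) ^ 2 * (((A.card : ℝ) / N) ^ δ * Real.log N ^ (-C)) ≤ (Pairs N A).card) ∧
    -- (4) the weighted number of pairs
    (∃ c : ℝ, 0 < c ∧ ∃ N₀ : ℕ, ∀ N : ℕ, N₀ ≤ N → ∀ (u : ℕ) (A : Finset ℕ), A ⊆ Ioc u (u + N) →
      (N : ℝ) ^ (1 - 28 / 10000000 : ℝ) ≤ A.card →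
        c * (A.card : ℝ) ^ 2 ≤ ∑ x ∈ Pairs N A, (9 : ℝ) ^ (x.2 - x.1).primeFactors.card) := by
  classical
  obtain ⟨c, hc, hpw⟩ := Pool.Agent.H16.P4.power_w
  obtain ⟨N₀, hN₀⟩ := hpw 1 1 isUnit_one (by
    rintro ⟨r, hr⟩
    nlinarith [mul_self_nonneg r])
  have e28 : (1 - 28 / 10000000 : ℝ) = (1 - 0.0000028 : ℝ) := by norm_num
  have W : ∃ c : ℝ, 0 < c ∧ ∃ N₀ : ℕ, ∀ N : ℕ, N₀ ≤ N → ∀ (u : ℕ) (A : Finset ℕ), A ⊆ Ioc u (u + N) →
      (N : ℝ) ^ (1 - 28 / 10000000 : ℝ) ≤ A.card → c * (A.card : ℝ) ^ 2 ≤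
        ∑ x ∈ (A ×ˢ A).filter (fun x : ℕ × ℕ => x.1 < x.2 ∧ Good N ((x.2 : ℤ) - x.1)),
          (9 : ℝ) ^ ((x.2 - x.1).primeFactors.card) := by
    refine ⟨c, hc, N₀, fun N hN u A hA hAc => (hN₀ N hN u A hA (by rwa [e28] at hAc)).trans ?_⟩
    apply sum_le_sum_of_subset_of_nonneg
    · intro x hx
      rw [mem_filter] at hx ⊢
      refine ⟨hx.1, hx.2.1, ?_⟩
      have h1 := hx.2.2
      rw [one_mul] at h1
      exact ⟨h1.1, h1.2⟩
    · intro x _ _
      positivity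
  have h2 := Pool.Agent.H13.P3.pairs_w Good (28 / 10000000) W
  have h3 := Pool.Agent.H13.P3.cliques_w Good (28 / 10000000) h2 (1 / 400000) (by norm_num)
  refine ⟨?_, ?_, ?_, ?_⟩
  · intro k δ hδ
    obtain ⟨C, hC, N₀, hN₀⟩ := h3 k δ hδ
    exact ⟨C, hC, N₀, fun N hN u A hA hAc => hN₀ N hN u A hA hAc⟩
  · intro δ hδ
    obtain ⟨C, hC, N₀, hN₀⟩ := h2 δ hδ
    refine ⟨C, hC, N₀ + 3, fun N hN k m hm hmk α => ?_⟩
    exact Pool.Agent.H13.P3.bohr_w (28 / 10000000) δ C hδ N (by omega) (Good N)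
      (fun A hA hAc => hN₀ N (by omega) 0 A hA hAc) k m hm hmk α
  · intro δ hδ
    obtain ⟨C, hC, N₀, hN₀⟩ := h2 δ hδ
    exact ⟨C, hC, N₀, fun N hN u A hA hAc => hN₀ N hN u A hA hAc⟩
  · obtain ⟨c, hc, N₀, hN₀⟩ := W
    exact ⟨c, hc, N₀, fun N hN u A hA hAc => hN₀ N hN u A hA hAc⟩

end Pool.Agent.Results.MP_484c84_nt.PowerSavingDifferences
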